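import Mathlib
import Pool.Agent.R72.VecSearch

set_option autoImplicit false

/-!
# A 4-coloured non-transitive tournament on 10 vertices beating all transitive ones

The tournament consists of two blocks of five vertices; all arcs between the blocks go from the first to the second one
and have colour `3`.  A block consists of a source, a directed triangle whose arcs have the colours `0, 1, 2`, and a
sink; the arc from the source to a vertex `x` of the triangle has the colour of the arc of the triangle that enters
`x`, the arc from `x` to the sink that of the arc of the triangle that leaves `x`.  So a path in a block that avoids one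
of the colours `0, 1, 2` has at most three vertices, and a colour-avoiding path of the tournament has at most six
vertices.  In a `4`-coloured transitive tournament on ten vertices there is always one with seven vertices: otherwise the
lengths of the longest paths avoiding the four colours and ending at the ten vertices are ten vectors in `{1, ..., 6}^4`
that are pairwise increasing in at least three coordinates, which is excluded in `Pool.Agent.R72.VecSearch`.
-/

namespace Pool.Agent.Results.MP_665821_co.NonTransitiveBetter

/-- `T` is a tournament on `V`: `T u v` means that there is an arc from `u` to `v`; there are no loops and any two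
distinct vertices are joined by exactly one arc. -/
structure IsTournament {V : Type} (T : V → V → Prop) : Prop where
  irrefl : ∀ u, ¬ T u u
  total : ∀ u v, u ≠ v → (T u v ↔ ¬ T v u)

/-- The tournament `T` on `N` vertices is isomorphic to the transitive tournament. -/
def IsTransitive {N : ℕ} (T : Fin N → Fin N → Prop) : Prop :=
  ∃ e : Fin N ≃ Fin N, ∀ u v, T u v ↔ e u < e v

/-- The set of colours of the edges `v₁ v₂`, `v₂ v₃`, ... of a path `p = [v₁, v₂, ...]`. -/
def pathColours {V : Type} {q : ℕ} (c : V → V → Fin q) (p : List V) : Finset (Fin q) :=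
  (List.zipWith c p p.tail).toFinset

/-- `p` is a colour-avoiding directed path of the tournament `T` with the edge colouring `c` in `q` colours: its
vertices are distinct, consecutive vertices are joined by arcs, and at most `q - 1` colours occur on these arcs. (Only
the values `c u v` with `T u v` matter.) -/
def IsAvoidingPath {V : Type} {q : ℕ} (T : V → V → Prop) (c : V → V → Fin q) (p : List V) : Prop :=
  p.Nodup ∧ p.IsChain T ∧ (pathColours c p).card ≤ q - 1

/-- The largest length (number of vertices) of a colour-avoiding directed path. -/
noncomputable def longest {V : Type} {q : ℕ} (T : V → V → Prop) (c : V → V → Fin q) : ℕ :=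
  sSup {m | ∃ p : List V, IsAvoidingPath T c p ∧ p.length = m}

/-- `f q N` is the minimum of `longest` over all colourings of the transitive tournament on `N` vertices
(`f_{q,q-1}(N)` in the problem). -/
noncomputable def f (q N : ℕ) : ℕ :=
  sInf {m | ∃ c : Fin N → Fin N → Fin q, longest (fun a b : Fin N => a < b) c = m}

/-- `g q N` is the minimum of `longest` over all `q`-edge-coloured tournaments on `N` vertices (`g_{q,q-1}(N)` in the
problem). -/
noncomputable def g (q N : ℕ) : ℕ :=
  sInf {m | ∃ (T : Fin N → Fin N → Prop) (c : Fin N → Fin N → Fin q), IsTournament T ∧ longest T c = m}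

section general

variable {V : Type} {q : ℕ}

theorem isChain_of_notMem (c : V → V → Fin q) (i : Fin q) : ∀ p : List V, i ∉ pathColours c p →
    p.IsChain (fun u v => c u v ≠ i) := by
  intro p
  induction p with
  | nil => intro _; exact List.IsChain.nil
  | cons a l ih =>
    intro h
    cases l with
    | nil => exact List.IsChain.singleton a
    | cons b t =>
      rw [List.isChain_cons_cons]
      simp only [pathColours, List.tail_cons, List.zipWith_cons_cons, List.toFinset_cons, Finset.mem_insert,
        not_or] at h
      exact ⟨fun h' => h.1 h'.symm, ih h.2⟩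

theorem notMem_of_isChain (c : V → V → Fin q) (i : Fin q) : ∀ p : List V,
    p.IsChain (fun u v => c u v ≠ i) → i ∉ pathColours c p := by
  intro p
  induction p with
  | nil => intro _; simp [pathColours]
  | cons a l ih =>
    intro h
    cases l with
    | nil => simp [pathColours]
    | cons b t =>
      rw [List.isChain_cons_cons] at h
      simp only [pathColours, List.tail_cons, List.zipWith_cons_cons, List.toFinset_cons, Finset.mem_insert,
        not_or]
      exact ⟨fun h' => h.1 h'.symm, ih h.2⟩

theorem avoiding_iff (hq : 0 < q) (T : V → V → Prop) (c : V → V → Fin q) (p : List V) :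
    IsAvoidingPath T c p ↔ p.Nodup ∧ p.IsChain T ∧ ∃ i : Fin q, p.IsChain (fun u v => c u v ≠ i) := by
  unfold IsAvoidingPath
  refine and_congr_right fun _ => and_congr_right fun _ => ⟨fun h => ?_, ?_⟩
  · obtain ⟨i, hi⟩ : ∃ i, i ∉ pathColours c p := by
      by_contra hcon
      push Not at hcon
      have h1 : pathColours c p = Finset.univ := Finset.eq_univ_of_forall hcon
      rw [h1, Finset.card_univ, Fintype.card_fin] at h
      omega
    exact ⟨i, isChain_of_notMem c i p hi⟩
  · rintro ⟨i, hi⟩
    have h1 := notMem_of_isChain c i p hi
    have h2 : pathColours c p ⊆ Finset.univ.erase i := fun j hj =>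
      Finset.mem_erase.2 ⟨fun h => h1 (h ▸ hj), Finset.mem_univ _⟩
    have h3 := Finset.card_le_card h2
    rw [Finset.card_erase_of_mem (Finset.mem_univ _), Finset.card_univ, Fintype.card_fin] at h3
    exact h3

theorem longest_bdd [Fintype V] (T : V → V → Prop) (c : V → V → Fin q) :
    BddAbove {m | ∃ p : List V, IsAvoidingPath T c p ∧ p.length = m} := by
  refine ⟨Fintype.card V, ?_⟩
  rintro m ⟨p, hp, rfl⟩
  exact hp.1.length_le_card

theorem le_longest [Fintype V] (T : V → V → Prop) (c : V → V → Fin q) (p : List V)
    (hp : IsAvoidingPath T c p) : p.length ≤ longest T c :=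
  le_csSup (longest_bdd T c) ⟨p, hp, rfl⟩

end general

section lower

/-- Every colouring of the transitive tournament on ten vertices with four colours has a colour-avoiding path with at
least seven vertices. -/
theorem seven_le (c : Fin 10 → Fin 10 → Fin 4) : 7 ≤ longest (fun a b : Fin 10 => a < b) c := by
  by_contra hcon
  push Not at hcon
  -- `P a i m`: there is a path avoiding `i` with `m + 1` vertices and first vertex `a`
  let P : Fin 10 → Fin 4 → ℕ → Prop := fun a i m => ∃ l : List (Fin 10),
    (a :: l).length = m + 1 ∧ (a :: l).IsChain (fun a b => a < b) ∧ (a :: l).IsChain (fun u v => c u v ≠ i)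
  have hP5 : ∀ a i m, P a i m → m ≤ 5 := by
    rintro a i m ⟨l, h1, h2, h3⟩
    have h4 : IsAvoidingPath (fun a b : Fin 10 => a < b) c (a :: l) := by
      rw [avoiding_iff (by norm_num)]
      refine ⟨?_, h2, i, h3⟩
      have h5 : (a :: l).Pairwise (fun a b => a < b) := List.isChain_iff_pairwise.1 h2
      exact h5.imp (fun h => ne_of_lt h)
    have h6 := le_longest _ c _ h4
    omega
  have hP0 : ∀ a i, P a i 0 := fun a i => ⟨[], rfl, List.IsChain.singleton a, List.IsChain.singleton a⟩
  classical
  let y : Fin 10 → Fin 4 → ℕ := fun a i => Nat.findGreatest (P a i) 5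
  have hy5 : ∀ a i, y a i ≤ 5 := fun a i => Nat.findGreatest_le 5
  have hyP : ∀ a i, P a i (y a i) := fun a i => Nat.findGreatest_spec (Nat.zero_le 5) (hP0 a i)
  have hstep : ∀ a b, a < b → ∀ i, c a b ≠ i → y b i < y a i := by
    intro a b hab i hi
    obtain ⟨l, h1, h2, h3⟩ := hyP b i
    have h4 : P a i (y b i + 1) := by
      refine ⟨b :: l, by simp only [List.length_cons] at h1 ⊢; omega, ?_, ?_⟩
      · exact List.isChain_cons_cons.2 ⟨hab, h2⟩
      · exact List.isChain_cons_cons.2 ⟨hi, h3⟩
    have h5 : y b i + 1 ≤ y a i := Nat.le_findGreatest (hP5 a i _ h4) h4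
    omega
  -- reverse the order
  refine Pool.Agent.R72.VecSearch.no_ten (fun a i => if h : a < 10 then y ⟨9 - a, by omega⟩ i else 0) ?_
    (fun a b => if h : a < 10 ∧ b < 10 then c ⟨9 - b, by omega⟩ ⟨9 - a, by omega⟩ else 0) ?_
  · intro a i
    split_ifs
    · exact hy5 _ _
    · omega
  · intro a b hab hb i hi
    have ha : a < 10 := by omega
    simp only [ha, hb, and_self, dite_true] at hi ⊢
    exact hstep _ _ (by rw [Fin.mk_lt_mk]; omega) i (Ne.symm hi)

end lower

section example10

/-- the colours of the arcs of a block with the vertices `0` (source), `1, 2, 3` (triangle), `4` (sink); `none` means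
that there is no arc -/
def blk : Fin 5 → Fin 5 → Option (Fin 4)
  | 0, 1 => some 2
  | 0, 2 => some 0
  | 0, 3 => some 1
  | 0, 4 => some 0
  | 1, 2 => some 0
  | 2, 3 => some 1
  | 3, 1 => some 2
  | 1, 4 => some 0
  | 2, 4 => some 1
  | 3, 4 => some 2
  | _, _ => none

/-- colours of the arcs of the tournament on ten vertices -/
def arc (u v : Fin 10) : Option (Fin 4) :=
  if u.val / 5 < v.val / 5 then some 3
  else if v.val / 5 < u.val / 5 then none
  else blk ⟨u.val % 5, Nat.mod_lt _ (by norm_num)⟩ ⟨v.val % 5, Nat.mod_lt _ (by norm_num)⟩

/-- the tournament on ten vertices -/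
def T (u v : Fin 10) : Prop := arc u v ≠ none

instance : DecidableRel T := fun u v => inferInstanceAs (Decidable (arc u v ≠ none))

/-- its colouring -/
def col (u v : Fin 10) : Fin 4 := (arc u v).getD 0

theorem T_tournament : IsTournament T := ⟨by decide +kernel, by decide +kernel⟩

theorem T_not_transitive : ¬ IsTransitive T := by
  rintro ⟨e, he⟩
  have h1 : e 1 < e 2 := (he 1 2).1 (by decide +kernel)
  have h2 : e 2 < e 3 := (he 2 3).1 (by decide +kernel)
  have h3 : e 3 < e 1 := (he 3 1).1 (by decide +kernel)
  exact absurd (h1.trans h2) (lt_asymm h3)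

/-- all vertices -/
def allV : List (Fin 10) := [0, 1, 2, 3, 4, 5, 6, 7, 8, 9]

theorem mem_allV : ∀ v, v ∈ allV := by decide

/-- can `v` be put in front of the list -/
def ext (i : Fin 4) (v : Fin 10) : List (Fin 10) → Bool
  | [] => true
  | a :: _ => decide (T v a) && decide (col v a ≠ i)

/-- search for paths avoiding the colour `i` that extend the given list by `n` vertices in front -/
def noPath (i : Fin 4) : ℕ → List (Fin 10) → Bool
  | 0, _ => false
  | n + 1, l => allV.all fun v => decide (v ∈ l) || !(ext i v l) || noPath i n (v :: l)

theorem noPath_sound (i : Fin 4) : ∀ (n : ℕ) (l l' : List (Fin 10)), noPath i n l = true → l'.length = n →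
    (l' ++ l).Nodup → (l' ++ l).IsChain T → (l' ++ l).IsChain (fun u v => col u v ≠ i) → False := by
  intro n
  induction n with
  | zero => intro l l' h; simp [noPath] at h
  | succ n ih =>
    intro l l' h hlen hnd hT hc
    induction l' using List.reverseRecOn with
    | nil => simp at hlen
    | append_singleton l'' v _ =>
      simp only [noPath, List.all_eq_true] at h
      have e : l'' ++ [v] ++ l = l'' ++ (v :: l) := by simp
      rw [e] at hnd hT hc
      have hv := h v (mem_allV v)
      have h1 : (v :: l).Nodup := hnd.of_append_right
      have h2 : v ∉ l := (List.nodup_cons.1 h1).1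
      have h3 : ext i v l = true := by
        cases l with
        | nil => rfl
        | cons a t =>
          have h4 := (List.isChain_append.1 hT).2.1
          have h5 := (List.isChain_append.1 hc).2.1
          simp only [ext, Bool.and_eq_true, decide_eq_true_eq]
          exact ⟨(List.isChain_cons_cons.1 h4).1, (List.isChain_cons_cons.1 h5).1⟩
      have h4 : noPath i n (v :: l) = true := by
        simpa [h2, h3] using hv
      exact ih (v :: l) l'' h4 (by simpa using hlen) hnd hT hc

theorem search : ∀ i : Fin 4, noPath i 7 [] = true := by decide +kernel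

theorem longest_le : longest T col ≤ 6 := by
  unfold longest
  refine csSup_le' ?_
  rintro m ⟨p, hp, rfl⟩
  rw [avoiding_iff (by norm_num)] at hp
  obtain ⟨h1, h2, i, h3⟩ := hp
  by_contra hcon
  push Not at hcon
  have hs : p.drop (p.length - 7) <:+ p := List.drop_suffix _ _
  have hl : (p.drop (p.length - 7)).length = 7 := by
    rw [List.length_drop]; omega
  exact noPath_sound i 7 [] (p.drop (p.length - 7)) (search i) hl
    (by simpa using h1.sublist hs.sublist) (by simpa using h2.suffix hs) (by simpa using h3.suffix hs)

end example10

/-- **Q1 is true**, with `q = 4` and `N = 10`: there is a non-transitive `4`-edge-coloured tournament on `10` vertices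
whose longest colour-avoiding directed path has strictly fewer than `f_{4,3}(10)` vertices; in particular
`g_{4,3}(10) < f_{4,3}(10)`. In numbers: the former has at most `6` vertices, and `f_{4,3}(10)` is at least `7`. -/
theorem result :
    (∃ q N : ℕ, 4 ≤ q ∧
      (∃ (T : Fin N → Fin N → Prop) (c : Fin N → Fin N → Fin q),
        IsTournament T ∧ ¬ IsTransitive T ∧ longest T c < f q N) ∧ g q N < f q N) ∧
    (∃ (T : Fin 10 → Fin 10 → Prop) (c : Fin 10 → Fin 10 → Fin 4),
        IsTournament T ∧ ¬ IsTransitive T ∧ longest T c ≤ 6) ∧ g 4 10 ≤ 6 ∧ 7 ≤ f 4 10 := by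
  have hf : 7 ≤ f 4 10 := by
    unfold f
    have hne : {m | ∃ c : Fin 10 → Fin 10 → Fin 4, longest (fun a b : Fin 10 => a < b) c = m}.Nonempty :=
      ⟨longest (fun a b : Fin 10 => a < b) (fun _ _ => (0 : Fin 4)), _, rfl⟩
    refine le_csInf hne ?_
    rintro m ⟨c, rfl⟩
    exact seven_le c
  have hg : g 4 10 ≤ 6 := by
    have hm : longest T col ∈ {m | ∃ (T : Fin 10 → Fin 10 → Prop) (c : Fin 10 → Fin 10 → Fin 4),
        IsTournament T ∧ longest T c = m} := ⟨T, col, T_tournament, rfl⟩
    exact (Nat.sInf_le hm).trans longest_le
  exact ⟨⟨4, 10, le_refl 4, ⟨T, col, T_tournament, T_not_transitive, by have := longest_le; omega⟩, by omega⟩,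
    ⟨T, col, T_tournament, T_not_transitive, longest_le⟩, hg, hf⟩

end Pool.Agent.Results.MP_665821_co.NonTransitiveBetter
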